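import Pool.Agent.Q71.GV.Defs

/-!
# The maps `[w : κ z^N : κ ρ^N]`
-/

namespace Q71.GV

open MeasureTheory Set Metric
open scoped ComplexConjugate ENNReal

/-- the lift -/
noncomputable def FF (κ ρ : ℝ) (N : ℕ) (z : Fin (1 + 1) → ℂ) : E3 :=
  WithLp.toLp 2 ![z 1, (κ : ℂ) * z 0 ^ N, ((κ * ρ ^ N : ℝ) : ℂ)]

theorem E3_norm_sq (a b c : ℂ) :
    ‖(WithLp.toLp 2 ![a, b, c] : E3)‖ ^ 2 = ‖a‖ ^ 2 + ‖b‖ ^ 2 + ‖c‖ ^ 2 := by
  rw [EuclideanSpace.norm_sq_eq, Fin.sum_univ_three]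
  rfl

theorem E3_inner (a b c a' b' c' : ℂ) :
    inner ℂ (WithLp.toLp 2 ![a, b, c] : E3) (WithLp.toLp 2 ![a', b', c'])
      = conj a * a' + conj b * b' + conj c * c' := by
  rw [PiLp.inner_apply, Fin.sum_univ_three]
  simp [RCLike.inner_apply, mul_comm]

theorem E3_ext {m : ℕ} {F : (Fin m → ℂ) → E3} (hF : Differentiable ℂ F) (z v : Fin m → ℂ)
    (i : Fin 3) : (fderiv ℂ F z v) i = fderiv ℂ (fun y => F y i) z v := by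
  have h1 := (EuclideanSpace.proj i : E3 →L[ℂ] ℂ).hasFDerivAt.comp z (hF z).hasFDerivAt
  have h2 : HasFDerivAt (fun y => F y i) ((EuclideanSpace.proj i : E3 →L[ℂ] ℂ).comp
      (fderiv ℂ F z)) z := h1
  rw [h2.fderiv]
  rfl

theorem diff_vec {m : ℕ} {a b c : (Fin m → ℂ) → ℂ} (ha : Differentiable ℂ a)
    (hb : Differentiable ℂ b) (hc : Differentiable ℂ c) :
    Differentiable ℂ fun z => (WithLp.toLp 2 ![a z, b z, c z] : E3) := by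
  rw [differentiable_euclidean]
  intro i
  fin_cases i
  · exact ha
  · exact hb
  · exact hc

theorem fderiv_vec {m : ℕ} {a b c : (Fin m → ℂ) → ℂ} (ha : Differentiable ℂ a)
    (hb : Differentiable ℂ b) (hc : Differentiable ℂ c) (z v : Fin m → ℂ) :
    fderiv ℂ (fun z => (WithLp.toLp 2 ![a z, b z, c z] : E3)) z v
      = WithLp.toLp 2 ![fderiv ℂ a z v, fderiv ℂ b z v, fderiv ℂ c z v] := by
  ext i
  rw [E3_ext (diff_vec ha hb hc)]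
  fin_cases i <;> rfl

theorem FF_diff (κ ρ : ℝ) (N : ℕ) : Differentiable ℂ (FF κ ρ N) :=
  diff_vec (by fun_prop) (by fun_prop) (by fun_prop)

theorem fderiv_coord {m : ℕ} (j : Fin m) (z v : Fin m → ℂ) :
    fderiv ℂ (fun z : Fin m → ℂ => z j) z v = v j := by
  have : HasFDerivAt (fun z : Fin m → ℂ => z j)
      (ContinuousLinearMap.proj (R := ℂ) (φ := fun _ : Fin m => ℂ) j) z :=
    (ContinuousLinearMap.proj (R := ℂ) (φ := fun _ : Fin m => ℂ) j).hasFDerivAt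
  rw [this.fderiv]
  rfl

theorem fderiv_pow_coord {m : ℕ} (κ : ℂ) (N : ℕ) (j : Fin m) (z v : Fin m → ℂ) :
    fderiv ℂ (fun z : Fin m → ℂ => κ * z j ^ N) z v = κ * (N * z j ^ (N - 1)) * v j := by
  have h0 : HasFDerivAt (fun z : Fin m → ℂ => z j)
      (ContinuousLinearMap.proj (R := ℂ) (φ := fun _ : Fin m => ℂ) j) z :=
    (ContinuousLinearMap.proj (R := ℂ) (φ := fun _ : Fin m => ℂ) j).hasFDerivAt
  have h1 := (h0.pow N).const_mul κ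
  rw [h1.fderiv]
  simp
  ring

theorem FF_fderiv (κ ρ : ℝ) (N : ℕ) (z v : Fin (1 + 1) → ℂ) :
    fderiv ℂ (FF κ ρ N) z v
      = WithLp.toLp 2 ![v 1, (κ : ℂ) * (N * z 0 ^ (N - 1)) * v 0, 0] := by
  have := fderiv_vec (m := 1 + 1) (a := fun z => z 1) (b := fun z => (κ : ℂ) * z 0 ^ N)
    (c := fun _ => ((κ * ρ ^ N : ℝ) : ℂ)) (by fun_prop) (by fun_prop) (by fun_prop) z v
  rw [fderiv_coord, fderiv_pow_coord] at this
  change fderiv ℂ (fun z : Fin (1 + 1) → ℂ => (WithLp.toLp 2 ![z 1, (κ : ℂ) * z 0 ^ N,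
    ((κ * ρ ^ N : ℝ) : ℂ)] : E3)) z v = _
  rw [this]
  simp

/-- The determinant for a general triple. -/
theorem det_formula (w B C β : ℂ) (S : ℝ) (hS : S = ‖w‖ ^ 2 + ‖B‖ ^ 2 + ‖C‖ ^ 2) (hS0 : 0 < S) :
    ((1 + fubiniStudy (WithLp.toLp 2 ![w, B, C]) (WithLp.toLp 2 ![0, β, 0])
        (WithLp.toLp 2 ![0, β, 0])) *
      (1 + fubiniStudy (WithLp.toLp 2 ![w, B, C]) (WithLp.toLp 2 ![1, 0, 0])
        (WithLp.toLp 2 ![1, 0, 0])) -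
      fubiniStudy (WithLp.toLp 2 ![w, B, C]) (WithLp.toLp 2 ![0, β, 0])
        (WithLp.toLp 2 ![1, 0, 0]) *
      fubiniStudy (WithLp.toLp 2 ![w, B, C]) (WithLp.toLp 2 ![1, 0, 0])
        (WithLp.toLp 2 ![0, β, 0])) =
    ((1 + ‖β‖ ^ 2 * (‖w‖ ^ 2 + ‖C‖ ^ 2) / S ^ 2 + (‖B‖ ^ 2 + ‖C‖ ^ 2) / S ^ 2
      + ‖β‖ ^ 2 * ‖C‖ ^ 2 / S ^ 3 : ℝ) : ℂ) := by
  have hn : ‖(WithLp.toLp 2 ![w, B, C] : E3)‖ ^ 2 = S := by rw [E3_norm_sq, hS]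
  have hn4 : ‖(WithLp.toLp 2 ![w, B, C] : E3)‖ ^ 4 = S ^ 2 := by rw [← hn]; ring
  unfold fubiniStudy
  rw [hn4, hn]
  simp only [E3_inner, map_zero, map_one, zero_mul, mul_zero, add_zero, zero_add, mul_one,
    one_mul]
  have hc : ∀ x : ℂ, ((‖x‖ : ℂ)) ^ 2 = conj x * x := by
    intro x
    rw [← Complex.ofReal_pow, ← Complex.normSq_eq_norm_sq, ← Complex.mul_conj, mul_comm]
  have hS0' : (S : ℂ) ≠ 0 := by exact_mod_cast hS0.ne'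
  push_cast
  simp only [hc]
  have hSc : (S : ℂ) = conj w * w + conj B * B + conj C * C := by
    rw [hS]; push_cast; simp only [hc]
  field_simp
  rw [hSc]
  ring

theorem gram_FF (κ ρ : ℝ) (N : ℕ) (z : Fin (1 + 1) → ℂ) (S : ℝ)
    (hS : S = ‖z 1‖ ^ 2 + ‖(κ : ℂ) * z 0 ^ N‖ ^ 2 + ‖((κ * ρ ^ N : ℝ) : ℂ)‖ ^ 2) (hS0 : 0 < S) :
    (gram (FF κ ρ N) z).det.re
      = 1 + ‖(κ : ℂ) * (N * z 0 ^ (N - 1))‖ ^ 2 * (‖z 1‖ ^ 2 + ‖((κ * ρ ^ N : ℝ) : ℂ)‖ ^ 2) / S ^ 2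
        + (‖(κ : ℂ) * z 0 ^ N‖ ^ 2 + ‖((κ * ρ ^ N : ℝ) : ℂ)‖ ^ 2) / S ^ 2
        + ‖(κ : ℂ) * (N * z 0 ^ (N - 1))‖ ^ 2 * ‖((κ * ρ ^ N : ℝ) : ℂ)‖ ^ 2 / S ^ 3 := by
  have h := det_formula (z 1) ((κ : ℂ) * z 0 ^ N) ((κ * ρ ^ N : ℝ) : ℂ)
    ((κ : ℂ) * (N * z 0 ^ (N - 1))) S hS hS0
  have h2 := Matrix.det_fin_two (gram (FF κ ρ N) z)
  rw [h2]
  simp only [gram, FF_fderiv]
  have e0 : ((Pi.single 0 1 : Fin (1 + 1) → ℂ) 0) = 1 := by simp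
  have e1 : ((Pi.single 0 1 : Fin (1 + 1) → ℂ) 1) = 0 := by simp
  have e2 : ((Pi.single 1 1 : Fin (1 + 1) → ℂ) 0) = 0 := by simp
  have e3 : ((Pi.single 1 1 : Fin (1 + 1) → ℂ) 1) = 1 := by simp
  simp only [e0, e1, e2, e3, mul_one, mul_zero, if_true]
  have f1 : ((0 : Fin 2) = 1) = False := by simp
  have f2 : ((1 : Fin 2) = 0) = False := by simp
  simp only [f1, f2, if_false, zero_add]
  rw [show FF κ ρ N z = WithLp.toLp 2 ![z 1, (κ : ℂ) * z 0 ^ N, ((κ * ρ ^ N : ℝ) : ℂ)] from rfl]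
  rw [h]
  exact Complex.ofReal_re _

end Q71.GV
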