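import Mathlib

/-!
# Volumes of graphs of maps to the projective plane
-/

namespace Q71.GV

open MeasureTheory Set Metric
open scoped ComplexConjugate ENNReal

/-- The space `ℂ³` with its standard Hermitian inner product. -/
abbrev E3 : Type := EuclideanSpace ℂ (Fin 3)

/-- The Fubini–Study Hermitian form of `ℙ²` at the point `[v]`, on the tangent vectors represented
by `ξ` and `η`: `(‖v‖² ⟨ξ, η⟩ - ⟨ξ, v⟩ ⟨v, η⟩) / ‖v‖⁴`, with `⟨ξ, η⟩ = ∑ ξ_j \bar η_j`. -/
noncomputable def fubiniStudy (v ξ η : E3) : ℂ :=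
  (((‖v‖ ^ 2 : ℝ) : ℂ) * inner ℂ η ξ - inner ℂ v ξ * inner ℂ η v) / ((‖v‖ ^ 4 : ℝ) : ℂ)

/-- The Hermitian matrix, in the coordinates of `ℂ^m`, of the form `dd^c ‖z‖² + f^* ω` for the map
`f = [F]` to `ℙ²` and the Fubini–Study form `ω`. -/
noncomputable def gram {m : ℕ} (F : (Fin m → ℂ) → E3) (z : Fin m → ℂ) :
    Matrix (Fin m) (Fin m) ℂ := fun i j =>
  (if i = j then 1 else 0) +
    fubiniStudy (F z) (fderiv ℂ F z (Pi.single i 1)) (fderiv ℂ F z (Pi.single j 1))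

/-- The `2m`-dimensional volume of the part over `S` of the graph of `f = [F]`. -/
noncomputable def graphVol {m : ℕ} (F : (Fin m → ℂ) → E3) (S : Set (Fin m → ℂ)) : ℝ≥0∞ :=
  ∫⁻ z in S, ENNReal.ofReal (gram F z).det.re

/-- The unit polydisc. -/
def polydisc (m : ℕ) : Set (Fin m → ℂ) := ball 0 1

/-- The polydisc shell. -/
def shell (m : ℕ) (r : ℝ) : Set (Fin m → ℂ) := ball 0 1 \ closedBall 0 r

/-- The restriction of `F` to the slice `{z} × ℂ^b`. -/
def slice {a b : ℕ} (F : (Fin (a + b) → ℂ) → E3) (z : Fin a → ℂ) : (Fin b → ℂ) → E3 :=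
  fun u => F (Fin.append z u)

/-- Conditions 1 and 2 of the class `𝓕_R` for the map `f = [F]` on the polydisc of
`ℂ^a × ℂ^b`. -/
def InClass (a b : ℕ) (r R : ℝ) (F : (Fin (a + b) → ℂ) → E3) : Prop :=
  graphVol F (shell (a + b) r) ≤ ENNReal.ofReal R ∧
    ∀ z ∈ polydisc a, graphVol (slice F z) (shell b r) ≤ ENNReal.ofReal R

end Q71.GV
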