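import Pool.Agent.Q71.GV.Int

/-!
# Estimates
-/

namespace Q71.GV

open MeasureTheory Set Metric Filter Topology
open scoped ComplexConjugate ENNReal

/-- first estimate -/
theorem est_one {N : ℕ} (hN : 2 ≤ N) {κ x y c S : ℝ} (hκ : κ * (N : ℝ) ^ 2 = 1) (hκ0 : 0 < κ)
    (hx0 : 0 ≤ x) (hx1 : x ≤ 1) (hy : 0 < y)
    (hS : S = y ^ 2 + (κ * x ^ N) ^ 2 + c ^ 2) :
    (κ * (N * x ^ (N - 1))) ^ 2 * y ≤ S := by
  have h1 : (κ * (N * x ^ (N - 1))) ^ 2 = κ * x ^ (2 * N - 2) := by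
    have : x ^ (2 * N - 2) = (x ^ (N - 1)) ^ 2 := by
      rw [← pow_mul]; congr 1; omega
    rw [this]
    calc (κ * (N * x ^ (N - 1))) ^ 2 = κ * (κ * (N : ℝ) ^ 2) * (x ^ (N - 1)) ^ 2 := by ring
      _ = _ := by rw [hκ]; ring
  rw [h1]
  have h2 : x ^ (2 * N - 2) ≤ x ^ N := pow_le_pow_of_le_one hx0 hx1 (by omega)
  have h3 : κ * x ^ (2 * N - 2) * y ≤ (κ * x ^ N) * y :=
    mul_le_mul_of_nonneg_right (mul_le_mul_of_nonneg_left h2 hκ0.le) hy.le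
  have h4 : 0 ≤ κ * x ^ N := by positivity
  nlinarith [sq_nonneg (κ * x ^ N - y), sq_nonneg c]

theorem est_G {N : ℕ} (hN : 2 ≤ N) {κ x y c S : ℝ} (hκ : κ * (N : ℝ) ^ 2 = 1) (hκ0 : 0 < κ)
    (hx0 : 0 ≤ x) (hx1 : x ≤ 1) (hy : 0 < y)
    (hS : S = y ^ 2 + (κ * x ^ N) ^ 2 + c ^ 2) :
    (κ * (N * x ^ (N - 1))) ^ 2 * (y ^ 2 + c ^ 2) / S ^ 2 ≤ 1 / y := by
  have h1 := est_one (c := c) hN hκ hκ0 hx0 hx1 hy hS
  have hS0 : 0 < S := by rw [hS]; positivity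
  have h2 : y ^ 2 + c ^ 2 ≤ S := by rw [hS]; nlinarith [sq_nonneg (κ * x ^ N)]
  rw [div_le_div_iff₀ (by positivity) hy]
  calc (κ * (N * x ^ (N - 1))) ^ 2 * (y ^ 2 + c ^ 2) * y
      = ((κ * (N * x ^ (N - 1))) ^ 2 * y) * (y ^ 2 + c ^ 2) := by ring
    _ ≤ S * S := mul_le_mul h1 h2 (by positivity) hS0.le
    _ = 1 * S ^ 2 := by ring

theorem pow_est (N : ℕ) : (N : ℝ) ^ 2 ≤ 4 ^ N := by
  have h1 : (N : ℝ) ≤ 2 ^ N := by exact_mod_cast (Nat.lt_two_pow_self (n := N)).le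
  calc (N : ℝ) ^ 2 ≤ (2 ^ N) ^ 2 := pow_le_pow_left₀ (by positivity) h1 2
    _ = 4 ^ N := by rw [← pow_mul, mul_comm, pow_mul]; norm_num

theorem est_det {N : ℕ} (hN : 2 ≤ N) {κ x y r S : ℝ} (hκ : κ * (N : ℝ) ^ 2 = 1) (hκ0 : 0 < κ)
    (hx0 : 0 ≤ x) (hx1 : x ≤ 1) (hy : 0 < y) (hr0 : 0 < r) (hr1 : r < 1)
    (hsh : r < x ∨ r < y)
    (hS : S = y ^ 2 + (κ * x ^ N) ^ 2 + (κ * (r ^ 2 / 4) ^ N) ^ 2) :
    (κ * (N * x ^ (N - 1))) ^ 2 * (κ * (r ^ 2 / 4) ^ N) ^ 2 / S ^ 3 ≤ 1 / y + 1 / r ^ 6 := by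
  have hS0 : 0 < S := by rw [hS]; positivity
  have hN1 : (1 : ℝ) ≤ (N : ℝ) := by exact_mod_cast (by omega : 1 ≤ N)
  have hκ1 : κ ≤ 1 := by
    have : (1 : ℝ) ≤ (N : ℝ) ^ 2 := one_le_pow₀ hN1
    nlinarith
  rcases hsh with h | h
  · -- `x > r`
    have h1 := est_one (c := κ * (r ^ 2 / 4) ^ N) hN hκ hκ0 hx0 hx1 hy hS
    have h2 : (κ * (r ^ 2 / 4) ^ N) ^ 2 ≤ S ^ 2 := by
      refine pow_le_pow_left₀ (by positivity) ?_ 2
      -- `κ ρ^N ≤ κ² r^{2N} ≤ S`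
      have h3 : (r ^ 2 / 4) ^ N ≤ κ * r ^ (2 * N) := by
        rw [div_pow, ← pow_mul, div_le_iff₀ (by positivity)]
        have h4 := pow_est N
        have h5 : 1 ≤ κ * 4 ^ N := by
          calc 1 = κ * (N : ℝ) ^ 2 := hκ.symm
            _ ≤ κ * 4 ^ N := mul_le_mul_of_nonneg_left h4 hκ0.le
        calc r ^ (2 * N) = r ^ (2 * N) * 1 := (mul_one _).symm
          _ ≤ r ^ (2 * N) * (κ * 4 ^ N) := mul_le_mul_of_nonneg_left h5 (by positivity)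
          _ = κ * r ^ (2 * N) * 4 ^ N := by ring
      calc κ * (r ^ 2 / 4) ^ N ≤ κ * (κ * r ^ (2 * N)) := mul_le_mul_of_nonneg_left h3 hκ0.le
        _ = (κ * r ^ N) ^ 2 := by ring
        _ ≤ (κ * x ^ N) ^ 2 := by
          refine pow_le_pow_left₀ (by positivity) (mul_le_mul_of_nonneg_left ?_ hκ0.le) 2
          exact pow_le_pow_left₀ hr0.le h.le N
        _ ≤ S := by rw [hS]; nlinarith [sq_nonneg (κ * (r ^ 2 / 4) ^ N), sq_nonneg y]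
    have h3 : (κ * (N * x ^ (N - 1))) ^ 2 * (κ * (r ^ 2 / 4) ^ N) ^ 2 / S ^ 3 ≤ 1 / y := by
      rw [div_le_div_iff₀ (by positivity) hy]
      calc (κ * (N * x ^ (N - 1))) ^ 2 * (κ * (r ^ 2 / 4) ^ N) ^ 2 * y
          = ((κ * (N * x ^ (N - 1))) ^ 2 * y) * (κ * (r ^ 2 / 4) ^ N) ^ 2 := by ring
        _ ≤ S * S ^ 2 := mul_le_mul h1 h2 (by positivity) hS0.le
        _ = 1 * S ^ 3 := by ring
    have : 0 ≤ 1 / r ^ 6 := by positivity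
    linarith
  · -- `y > r`
    have h1 : r ^ 2 ≤ S := by
      have : r ^ 2 ≤ y ^ 2 := pow_le_pow_left₀ hr0.le h.le 2
      rw [hS]
      nlinarith [sq_nonneg (κ * (r ^ 2 / 4) ^ N), sq_nonneg (κ * x ^ N)]
    have h2 : (κ * (N * x ^ (N - 1))) ^ 2 ≤ 1 := by
      have h3 : (κ * (N * x ^ (N - 1))) ^ 2 = κ * (κ * (N : ℝ) ^ 2) * (x ^ (N - 1)) ^ 2 := by ring
      rw [h3, hκ, mul_one]
      have h4 : (x ^ (N - 1)) ^ 2 ≤ 1 := pow_le_one₀ (by positivity) (pow_le_one₀ hx0 hx1)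
      calc κ * (x ^ (N - 1)) ^ 2 ≤ 1 * 1 := mul_le_mul hκ1 h4 (by positivity) zero_le_one
        _ = 1 := one_mul _
    have h3 : (κ * (r ^ 2 / 4) ^ N) ^ 2 ≤ 1 := by
      refine pow_le_one₀ (by positivity) ?_
      have h4 : (r ^ 2 / 4) ^ N ≤ 1 := by
        refine pow_le_one₀ (by positivity) ?_
        nlinarith
      calc κ * (r ^ 2 / 4) ^ N ≤ 1 * 1 := mul_le_mul hκ1 h4 (by positivity) zero_le_one
        _ = 1 := one_mul _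
    have h4 : (κ * (N * x ^ (N - 1))) ^ 2 * (κ * (r ^ 2 / 4) ^ N) ^ 2 / S ^ 3 ≤ 1 / r ^ 6 := by
      refine div_le_div₀ zero_le_one ?_ (by positivity) ?_
      · calc _ ≤ (1 : ℝ) * 1 := mul_le_mul h2 h3 (by positivity) zero_le_one
          _ = 1 := one_mul _
      · calc r ^ 6 = (r ^ 2) ^ 3 := by ring
          _ ≤ S ^ 3 := pow_le_pow_left₀ (by positivity) h1 3
    have : 0 ≤ 1 / y := by positivity
    linarith

/-- the lower estimate -/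
theorem est_low {N : ℕ} (hN : 2 ≤ N) {κ x y ρ S : ℝ} (hκ0 : 0 < κ) (hρ : 0 < ρ)
    (hx0 : ρ ≤ x) (hx1 : x ≤ ρ * (1 + 1 / N)) (hy0 : 0 ≤ y) (hy : y ≤ κ * ρ ^ N)
    (hS : S = y ^ 2 + (κ * x ^ N) ^ 2 + (κ * ρ ^ N) ^ 2) :
    (N : ℝ) ^ 2 / (1000 * ρ ^ 2 * (κ * ρ ^ N) ^ 2) ≤
      (κ * (N * x ^ (N - 1))) ^ 2 * (κ * ρ ^ N) ^ 2 / S ^ 3 := by
  have hN0 : (0 : ℝ) < N := by exact_mod_cast (by omega : 0 < N)
  have hxnn : 0 ≤ x := by linarith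
  set q := (κ * ρ ^ N) ^ 2 with hq
  have hq0 : 0 < q := by positivity
  have hS0 : 0 < S := by rw [hS]; positivity
  have h1 : S ≤ 10 * q := by
    have h2 : y ^ 2 ≤ q := pow_le_pow_left₀ hy0 hy 2
    have h3 : (κ * x ^ N) ^ 2 ≤ 8 * q := by
      have h4 : x ^ N ≤ ρ ^ N * (1 + 1 / N) ^ N := by
        rw [← mul_pow]
        exact pow_le_pow_left₀ (by linarith) hx1 N
      have h5 : (1 + 1 / (N : ℝ)) ^ N ≤ Real.exp 1 := by
        have h6 : 1 + 1 / (N : ℝ) ≤ Real.exp (1 / N) := by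
          have := Real.add_one_le_exp (1 / (N : ℝ))
          linarith
        calc (1 + 1 / (N : ℝ)) ^ N ≤ (Real.exp (1 / N)) ^ N :=
              pow_le_pow_left₀ (by positivity) h6 N
          _ = Real.exp 1 := by
            rw [← Real.exp_nat_mul]
            congr 1
            field_simp
      have h6 : Real.exp 1 ^ 2 ≤ 8 := by
        have := Real.exp_one_lt_d9
        have h0 := Real.exp_pos 1
        nlinarith
      calc (κ * x ^ N) ^ 2 ≤ (κ * (ρ ^ N * Real.exp 1)) ^ 2 := by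
            refine pow_le_pow_left₀ (by positivity) (mul_le_mul_of_nonneg_left ?_ hκ0.le) 2
            exact h4.trans (mul_le_mul_of_nonneg_left h5 (by positivity))
        _ = Real.exp 1 ^ 2 * q := by rw [hq]; ring
        _ ≤ 8 * q := mul_le_mul_of_nonneg_right h6 hq0.le
    rw [hS]
    linarith
  have h2 : (κ * (N * x ^ (N - 1))) ^ 2 ≥ (N : ℝ) ^ 2 * q / ρ ^ 2 := by
    have h3 : ρ ^ (N - 1) ≤ x ^ (N - 1) := pow_le_pow_left₀ hρ.le hx0 _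
    have h4 : (κ * (N * ρ ^ (N - 1))) ^ 2 = (N : ℝ) ^ 2 * q / ρ ^ 2 := by
      have h5 : ρ ^ N = ρ ^ (N - 1) * ρ := by
        rw [← pow_succ]; congr 1; omega
      rw [hq, h5]
      field_simp
    rw [← h4]
    refine pow_le_pow_left₀ (by positivity) (mul_le_mul_of_nonneg_left ?_ hκ0.le) 2
    exact mul_le_mul_of_nonneg_left h3 hN0.le
  rw [div_le_div_iff₀ (by positivity) (by positivity)]
  have h3 : S ^ 3 ≤ (10 * q) ^ 3 := pow_le_pow_left₀ hS0.le h1 3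
  calc (N : ℝ) ^ 2 * S ^ 3 ≤ (N : ℝ) ^ 2 * (10 * q) ^ 3 :=
        mul_le_mul_of_nonneg_left h3 (by positivity)
    _ = ((N : ℝ) ^ 2 * q / ρ ^ 2) * q * (1000 * ρ ^ 2 * q) := by
      field_simp
      ring
    _ ≤ (κ * (N * x ^ (N - 1))) ^ 2 * q * (1000 * ρ ^ 2 * q) := by
      refine mul_le_mul_of_nonneg_right (mul_le_mul_of_nonneg_right h2 hq0.le) (by positivity)

end Q71.GV
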