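import Pool.Agent.Q71.GV.Comp

/-!
# Integrals
-/

namespace Q71.GV

open MeasureTheory Set Metric Filter Topology
open scoped ComplexConjugate ENNReal

theorem lint_norm (g : ℝ → ℝ≥0∞) (hg : Measurable g) :
    ∫⁻ w : ℂ, g ‖w‖ = ENNReal.ofReal (2 * Real.pi) * ∫⁻ s in Ioi 0, ENNReal.ofReal s * g s := by
  rw [← Complex.lintegral_comp_polarCoord_symm]
  have h1 : polarCoord.target = Ioi (0 : ℝ) ×ˢ Ioo (-Real.pi) Real.pi := polarCoord_target
  rw [h1]
  have h2 : ∫⁻ p in Ioi (0 : ℝ) ×ˢ Ioo (-Real.pi) Real.pi,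
      ENNReal.ofReal p.1 • g ‖Complex.polarCoord.symm p‖
      = ∫⁻ p in Ioi (0 : ℝ) ×ˢ Ioo (-Real.pi) Real.pi, ENNReal.ofReal p.1 * g p.1 := by
    refine setLIntegral_congr_fun (measurableSet_Ioi.prod measurableSet_Ioo) fun p hp => ?_
    simp only [smul_eq_mul]
    rw [Complex.norm_polarCoord_symm, abs_of_pos hp.1]
  rw [h2, Measure.volume_eq_prod, ← Measure.prod_restrict, lintegral_prod _ (by fun_prop)]
  simp only [lintegral_const, Measure.restrict_apply MeasurableSet.univ, univ_inter,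
    Real.volume_Ioo]
  rw [lintegral_mul_const _ (by fun_prop), mul_comm]
  congr 2
  ring

theorem lint_G (c : ℝ) (hc : 0 < c) :
    ∫⁻ w : ℂ, ENNReal.ofReal (c / (‖w‖ ^ 2 + c) ^ 2) ≤ ENNReal.ofReal Real.pi := by
  rw [lint_norm (fun s => ENNReal.ofReal (c / (s ^ 2 + c) ^ 2)) (by fun_prop)]
  have hd : ∀ x ∈ Ici (0 : ℝ), HasDerivAt (fun s : ℝ => -(c / 2) * (s ^ 2 + c)⁻¹)
      (x * (c / (x ^ 2 + c) ^ 2)) x := by
    intro x _
    have hne : x ^ 2 + c ≠ 0 := by positivity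
    have h1 : HasDerivAt (fun s : ℝ => s ^ 2 + c) (2 * x) x := by
      simpa using (hasDerivAt_pow 2 x).add_const c
    have h2 := (h1.inv hne).const_mul (-(c / 2))
    refine h2.congr_deriv ?_
    field_simp
  have hnn : ∀ x ∈ Ioi (0 : ℝ), 0 ≤ x * (c / (x ^ 2 + c) ^ 2) := by
    intro x hx
    have : (0 : ℝ) < x := hx
    positivity
  have ht : Tendsto (fun s : ℝ => -(c / 2) * (s ^ 2 + c)⁻¹) atTop (𝓝 0) := by
    have h1 : Tendsto (fun s : ℝ => s ^ 2 + c) atTop atTop :=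
      tendsto_atTop_add_const_right _ _ (tendsto_pow_atTop two_ne_zero)
    simpa using (h1.inv_tendsto_atTop).const_mul (-(c / 2))
  have hint := integral_Ioi_of_hasDerivAt_of_nonneg' hd hnn ht
  have hintble := integrableOn_Ioi_deriv_of_nonneg' hd hnn ht
  have h3 : ∫⁻ s in Ioi (0 : ℝ), ENNReal.ofReal s * ENNReal.ofReal (c / (s ^ 2 + c) ^ 2)
      = ENNReal.ofReal (∫ s in Ioi (0 : ℝ), s * (c / (s ^ 2 + c) ^ 2)) := by
    rw [ofReal_integral_eq_lintegral_ofReal hintble]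
    · refine setLIntegral_congr_fun measurableSet_Ioi fun s hs => ?_
      have : (0 : ℝ) < s := hs
      rw [← ENNReal.ofReal_mul this.le]
    · rw [EventuallyLE, ae_restrict_iff' measurableSet_Ioi]
      exact Eventually.of_forall hnn
  rw [h3, hint, ← ENNReal.ofReal_mul (by positivity)]
  refine ENNReal.ofReal_le_ofReal (le_of_eq ?_)
  field_simp
  ring

theorem lint_inv : ∫⁻ w in ball (0 : ℂ) 1, ENNReal.ofReal (1 / ‖w‖) ≤
    ENNReal.ofReal (2 * Real.pi) := by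
  rw [← lintegral_indicator measurableSet_ball]
  have h1 : ∀ w : ℂ, (ball (0 : ℂ) 1).indicator (fun w => ENNReal.ofReal (1 / ‖w‖)) w
      = (Iio (1 : ℝ)).indicator (fun s => ENNReal.ofReal (1 / s)) ‖w‖ := by
    intro w
    by_cases hw : w ∈ ball (0 : ℂ) 1
    · rw [indicator_of_mem hw, indicator_of_mem]
      simpa using hw
    · rw [indicator_of_notMem hw, indicator_of_notMem]
      simpa using hw
  rw [lintegral_congr h1, lint_norm (fun s => (Iio (1 : ℝ)).indicator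
    (fun s => ENNReal.ofReal (1 / s)) s) (by
      exact Measurable.indicator (by fun_prop) measurableSet_Iio)]
  have h2 : ∫⁻ s in Ioi (0 : ℝ), ENNReal.ofReal s * (Iio (1 : ℝ)).indicator
      (fun s => ENNReal.ofReal (1 / s)) s ≤ ∫⁻ s in Ioi (0 : ℝ), (Iio (1 : ℝ)).indicator
        (fun _ => 1) s := by
    refine setLIntegral_mono' measurableSet_Ioi fun s hs => ?_
    have hs0 : (0 : ℝ) < s := hs
    by_cases h : s ∈ Iio (1 : ℝ)
    · rw [indicator_of_mem h, indicator_of_mem h, ← ENNReal.ofReal_mul hs0.le,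
        mul_one_div_cancel hs0.ne', ENNReal.ofReal_one]
    · rw [indicator_of_notMem h, mul_zero]
      exact zero_le
  have h3 : ∫⁻ s in Ioi (0 : ℝ), (Iio (1 : ℝ)).indicator (fun _ => (1 : ℝ≥0∞)) s = 1 := by
    rw [lintegral_indicator measurableSet_Iio, lintegral_one,
      Measure.restrict_apply MeasurableSet.univ, univ_inter,
      Measure.restrict_apply measurableSet_Iio, inter_comm, Ioi_inter_Iio, Real.volume_Ioo]
    simp
  calc _ ≤ ENNReal.ofReal (2 * Real.pi) * 1 := by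
        refine mul_le_mul_right (h2.trans h3.le) _
    _ = _ := mul_one _

/-- Tonelli on the bidisc. -/
theorem lint_two (h : ℂ → ℂ → ℝ≥0∞) (hm : Measurable (Function.uncurry h)) (A B : Set ℂ) :
    ∫⁻ z in {z : Fin (1 + 1) → ℂ | z 0 ∈ A ∧ z 1 ∈ B}, h (z 0) (z 1)
      = ∫⁻ a in A, ∫⁻ b in B, h a b := by
  have h1 := (volume_preserving_finTwoArrow ℂ)
  have h2 : {z : Fin (1 + 1) → ℂ | z 0 ∈ A ∧ z 1 ∈ B}
      = (MeasurableEquiv.finTwoArrow (α := ℂ)) ⁻¹' (A ×ˢ B) := by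
    ext z
    simp [MeasurableEquiv.finTwoArrow]
  rw [h2]
  have h3 := h1.setLIntegral_comp_preimage_emb (MeasurableEquiv.measurableEmbedding _)
    (Function.uncurry h) (A ×ˢ B)
  have h4 : ∫⁻ z in (MeasurableEquiv.finTwoArrow (α := ℂ)) ⁻¹' (A ×ˢ B), h (z 0) (z 1)
      = ∫⁻ z in (MeasurableEquiv.finTwoArrow (α := ℂ)) ⁻¹' (A ×ˢ B),
        Function.uncurry h (MeasurableEquiv.finTwoArrow z) := rfl
  refine (h4.trans h3).trans ?_
  rw [Measure.volume_eq_prod, ← Measure.prod_restrict, lintegral_prod _ hm.aemeasurable]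
  rfl

end Q71.GV
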