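import Pool.Agent.Q71.GV.Est

/-!
# The volumes
-/

namespace Q71.GV

open MeasureTheory Set Metric Filter Topology
open scoped ComplexConjugate ENNReal

theorem lint_inv' : ∫⁻ w in ball (0 : ℂ) 1, (ENNReal.ofReal ‖w‖)⁻¹ ≤
    ENNReal.ofReal (2 * Real.pi) := by
  rw [← lintegral_indicator measurableSet_ball]
  have h1 : ∀ w : ℂ, (ball (0 : ℂ) 1).indicator (fun w => (ENNReal.ofReal ‖w‖)⁻¹) w
      = (Iio (1 : ℝ)).indicator (fun s => (ENNReal.ofReal s)⁻¹) ‖w‖ := by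
    intro w
    by_cases hw : w ∈ ball (0 : ℂ) 1
    · rw [indicator_of_mem hw, indicator_of_mem]
      simpa using hw
    · rw [indicator_of_notMem hw, indicator_of_notMem]
      simpa using hw
  rw [lintegral_congr h1, lint_norm (fun s => (Iio (1 : ℝ)).indicator
    (fun s => (ENNReal.ofReal s)⁻¹) s) (by
      exact Measurable.indicator (by fun_prop) measurableSet_Iio)]
  have h2 : ∫⁻ s in Ioi (0 : ℝ), ENNReal.ofReal s * (Iio (1 : ℝ)).indicator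
      (fun s => (ENNReal.ofReal s)⁻¹) s ≤ ∫⁻ s in Ioi (0 : ℝ), (Iio (1 : ℝ)).indicator
        (fun _ => 1) s := by
    refine setLIntegral_mono' measurableSet_Ioi fun s hs => ?_
    have hs0 : (0 : ℝ) < s := hs
    by_cases h : s ∈ Iio (1 : ℝ)
    · rw [indicator_of_mem h, indicator_of_mem h, ENNReal.mul_inv_cancel]
      · simpa using hs0
      · exact ENNReal.ofReal_ne_top
    · rw [indicator_of_notMem h, mul_zero]
      exact zero_le
  have h3 : ∫⁻ s in Ioi (0 : ℝ), (Iio (1 : ℝ)).indicator (fun _ => (1 : ℝ≥0∞)) s = 1 := by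
    rw [lintegral_indicator measurableSet_Iio, lintegral_one,
      Measure.restrict_apply MeasurableSet.univ, univ_inter,
      Measure.restrict_apply measurableSet_Iio, inter_comm, Ioi_inter_Iio, Real.volume_Ioo]
    simp
  calc _ ≤ ENNReal.ofReal (2 * Real.pi) * 1 := by
        refine mul_le_mul_right (h2.trans h3.le) _
    _ = _ := mul_one _

theorem vol_ball (s : ℝ) (hs : 0 ≤ s) :
    volume (ball (0 : ℂ) s) = ENNReal.ofReal (Real.pi * s ^ 2) := by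
  rw [Complex.volume_ball, mul_comm, ← ENNReal.ofReal_pow hs, ENNReal.ofReal_mul Real.pi_pos.le]
  congr 1
  exact (ENNReal.ofReal_coe_nnreal (p := NNReal.pi)).symm

theorem FF_ne (κ ρ : ℝ) (hκ : 0 < κ) (hρ : 0 < ρ) (N : ℕ) (z : Fin (1 + 1) → ℂ) :
    FF κ ρ N z ≠ 0 := by
  intro h
  have h1 : (FF κ ρ N z) 2 = 0 := by rw [h]; rfl
  have h2 : ((κ * ρ ^ N : ℝ) : ℂ) = 0 := h1
  have h3 : κ * ρ ^ N = 0 := by exact_mod_cast h2
  exact (by positivity : κ * ρ ^ N ≠ 0) h3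

/-- the bound for the fibre -/
noncomputable def TT (r : ℝ) : ℝ≥0∞ :=
  ENNReal.ofReal (1 + 1 / r ^ 6) * ENNReal.ofReal Real.pi
    + 2 * ENNReal.ofReal (2 * Real.pi) + ENNReal.ofReal Real.pi

theorem TT_ne_top (r : ℝ) : TT r ≠ ⊤ := by
  unfold TT
  finiteness

theorem norm_B (κ : ℝ) (hκ : 0 < κ) (N : ℕ) (a : ℂ) : ‖(κ : ℂ) * a ^ N‖ = κ * ‖a‖ ^ N := by
  rw [norm_mul, norm_pow, Complex.norm_real, Real.norm_eq_abs, abs_of_pos hκ]

theorem norm_beta (κ : ℝ) (hκ : 0 < κ) (N : ℕ) (a : ℂ) :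
    ‖(κ : ℂ) * (N * a ^ (N - 1))‖ = κ * (N * ‖a‖ ^ (N - 1)) := by
  rw [norm_mul, norm_mul, norm_pow, Complex.norm_real, Real.norm_eq_abs, abs_of_pos hκ,
    Complex.norm_natCast]

theorem norm_C (κ ρ : ℝ) (hκ : 0 < κ) (hρ : 0 < ρ) (N : ℕ) :
    ‖((κ * ρ ^ N : ℝ) : ℂ)‖ = κ * ρ ^ N := by
  rw [Complex.norm_real, Real.norm_eq_abs, abs_of_pos (by positivity)]

theorem det_re (κ ρ : ℝ) (hκ : 0 < κ) (hρ : 0 < ρ) (N : ℕ) (z : Fin (1 + 1) → ℂ) (S : ℝ)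
    (hS : S = ‖z 1‖ ^ 2 + (κ * ‖z 0‖ ^ N) ^ 2 + (κ * ρ ^ N) ^ 2) :
    (gram (FF κ ρ N) z).det.re
      = 1 + (κ * (N * ‖z 0‖ ^ (N - 1))) ^ 2 * (‖z 1‖ ^ 2 + (κ * ρ ^ N) ^ 2) / S ^ 2
        + ((κ * ‖z 0‖ ^ N) ^ 2 + (κ * ρ ^ N) ^ 2) / S ^ 2
        + (κ * (N * ‖z 0‖ ^ (N - 1))) ^ 2 * (κ * ρ ^ N) ^ 2 / S ^ 3 := by
  rw [gram_FF κ ρ N z S (by rw [hS, norm_B κ hκ, norm_C κ ρ hκ hρ])
    (by rw [hS]; positivity), norm_B κ hκ, norm_beta κ hκ, norm_C κ ρ hκ hρ]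

/-- The volume over the shell. -/
theorem vol_shell {N : ℕ} (hN : 2 ≤ N) {κ r : ℝ} (hκ : κ * (N : ℝ) ^ 2 = 1) (hκ0 : 0 < κ)
    (hr0 : 0 < r) (hr1 : r < 1) :
    graphVol (FF κ (r ^ 2 / 4) N) (shell (1 + 1) r) ≤ TT r * ENNReal.ofReal Real.pi := by
  have hρ : 0 < r ^ 2 / 4 := by positivity
  let c : ℂ → ℝ := fun a => (κ * ‖a‖ ^ N) ^ 2 + (κ * (r ^ 2 / 4) ^ N) ^ 2
  have hc : ∀ a, 0 < c a := fun a => by
    have : 0 < (κ * (r ^ 2 / 4) ^ N) ^ 2 := by positivity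
    have : 0 ≤ (κ * ‖a‖ ^ N) ^ 2 := by positivity
    simp only [c]
    linarith
  let h : ℂ → ℂ → ℝ≥0∞ := fun a b => ENNReal.ofReal (1 + 1 / r ^ 6) +
    2 * (ENNReal.ofReal ‖b‖)⁻¹ + ENNReal.ofReal (c a / (‖b‖ ^ 2 + c a) ^ 2)
  have hcc : Continuous c := by simp only [c]; fun_prop
  have hm : Measurable (Function.uncurry h) := by
    have h1 : Measurable fun p : ℂ × ℂ => (ENNReal.ofReal ‖p.2‖)⁻¹ := by fun_prop
    have h2 : Measurable fun p : ℂ × ℂ => c p.1 / (‖p.2‖ ^ 2 + c p.1) ^ 2 := by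
      have h3 : Measurable fun p : ℂ × ℂ => c p.1 := (hcc.comp continuous_fst).measurable
      fun_prop
    exact ((measurable_const).add (h1.const_mul 2)).add h2.ennreal_ofReal
  have hstep : graphVol (FF κ (r ^ 2 / 4) N) (shell (1 + 1) r)
      ≤ ∫⁻ z in {z : Fin (1 + 1) → ℂ | z 0 ∈ ball (0 : ℂ) 1 ∧ z 1 ∈ ball (0 : ℂ) 1},
        h (z 0) (z 1) := by
    unfold graphVol
    have hsub : shell (1 + 1) r ⊆
        {z : Fin (1 + 1) → ℂ | z 0 ∈ ball (0 : ℂ) 1 ∧ z 1 ∈ ball (0 : ℂ) 1} := by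
      intro z hz
      have h1 : ‖z‖ < 1 := by simpa using hz.1
      constructor
      · have := norm_le_pi_norm z 0
        simp only [mem_ball_zero_iff]
        linarith
      · have := norm_le_pi_norm z 1
        simp only [mem_ball_zero_iff]
        linarith
    refine le_trans ?_ (lintegral_mono_set hsub)
    refine setLIntegral_mono' (measurableSet_ball.diff measurableSet_closedBall) fun z hz => ?_
    have hz' := hsub hz
    have hx1 : ‖z 0‖ < 1 := by simpa using hz'.1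
    by_cases hb : z 1 = 0
    · simp only [h, hb, norm_zero, ENNReal.ofReal_zero, ENNReal.inv_zero]
      simp
    have hy : 0 < ‖z 1‖ := norm_pos_iff.2 hb
    have hsh : r < ‖z 0‖ ∨ r < ‖z 1‖ := by
      by_contra hcon
      push Not at hcon
      apply hz.2
      rw [mem_closedBall_zero_iff, pi_norm_le_iff_of_nonneg hr0.le]
      intro i
      fin_cases i
      · exact hcon.1
      · exact hcon.2
    have hS : (‖z 1‖ ^ 2 + (κ * ‖z 0‖ ^ N) ^ 2 + (κ * (r ^ 2 / 4) ^ N) ^ 2)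
        = ‖z 1‖ ^ 2 + c (z 0) := by simp only [c]; ring
    rw [det_re κ (r ^ 2 / 4) hκ0 hρ N z _ rfl]
    have e1 := est_G (c := κ * (r ^ 2 / 4) ^ N) hN hκ hκ0 (norm_nonneg (z 0)) hx1.le hy rfl
    have e2 := est_det hN hκ hκ0 (norm_nonneg (z 0)) hx1.le hy hr0 hr1 hsh rfl
    have e3 : (ENNReal.ofReal ‖z 1‖)⁻¹ = ENNReal.ofReal (1 / ‖z 1‖) := by
      rw [one_div, ENNReal.ofReal_inv_of_pos hy]
    simp only [h]
    rw [e3, ← hS]
    have e4 : (2 : ℝ≥0∞) * ENNReal.ofReal (1 / ‖z 1‖) = ENNReal.ofReal (2 * (1 / ‖z 1‖)) := by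
      rw [ENNReal.ofReal_mul (by norm_num)]
      simp
    rw [e4, ← ENNReal.ofReal_add (by positivity) (by positivity),
      ← ENNReal.ofReal_add (by positivity) (by have := hc (z 0); positivity)]
    refine ENNReal.ofReal_le_ofReal ?_
    have e5 : c (z 0) = (κ * ‖z 0‖ ^ N) ^ 2 + (κ * (r ^ 2 / 4) ^ N) ^ 2 := rfl
    rw [e5]
    linarith
  refine hstep.trans ?_
  rw [lint_two h hm]
  have hin : ∀ a, ∫⁻ b in ball (0 : ℂ) 1, h a b ≤ TT r := by
    intro a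
    have m1 : Measurable fun b : ℂ => ENNReal.ofReal (1 + 1 / r ^ 6) +
        2 * (ENNReal.ofReal ‖b‖)⁻¹ := by fun_prop
    simp only [h]
    rw [lintegral_add_left m1, lintegral_add_left measurable_const,
      lintegral_const, Measure.restrict_apply MeasurableSet.univ, univ_inter,
      vol_ball 1 zero_le_one, one_pow, mul_one, lintegral_const_mul _ (by fun_prop)]
    unfold TT
    refine add_le_add (add_le_add le_rfl ?_) ?_
    · exact mul_le_mul_right lint_inv' _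
    · exact (setLIntegral_le_lintegral _ _).trans (lint_G (c a) (hc a))
  calc ∫⁻ a in ball (0 : ℂ) 1, ∫⁻ b in ball (0 : ℂ) 1, h a b
      ≤ ∫⁻ _a in ball (0 : ℂ) 1, TT r := lintegral_mono fun a => hin a
    _ = TT r * ENNReal.ofReal Real.pi := by
      rw [lintegral_const, Measure.restrict_apply MeasurableSet.univ, univ_inter,
        vol_ball 1 zero_le_one, one_pow, mul_one]

/-- The slices. -/
theorem slice_FF (κ ρ : ℝ) (N : ℕ) (z : Fin 1 → ℂ) :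
    slice (a := 1) (b := 1) (FF κ ρ N) z = fun u : Fin 1 → ℂ =>
      (WithLp.toLp 2 ![u 0, (κ : ℂ) * z 0 ^ N, ((κ * ρ ^ N : ℝ) : ℂ)] : E3) := rfl

theorem gram_slice (κ ρ : ℝ) (hκ : 0 < κ) (hρ : 0 < ρ) (N : ℕ) (z u : Fin 1 → ℂ) :
    (gram (slice (a := 1) (b := 1) (FF κ ρ N) z) u).det.re
      = 1 + ((κ * ‖z 0‖ ^ N) ^ 2 + (κ * ρ ^ N) ^ 2) /
        (‖u 0‖ ^ 2 + ((κ * ‖z 0‖ ^ N) ^ 2 + (κ * ρ ^ N) ^ 2)) ^ 2 := by
  rw [Matrix.det_fin_one, slice_FF]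
  simp only [gram, if_true]
  have hf : fderiv ℂ (fun u : Fin 1 → ℂ =>
      (WithLp.toLp 2 ![u 0, (κ : ℂ) * z 0 ^ N, ((κ * ρ ^ N : ℝ) : ℂ)] : E3)) u (Pi.single 0 1)
      = WithLp.toLp 2 ![1, 0, 0] := by
    rw [fderiv_vec (a := fun u : Fin 1 → ℂ => u 0) (b := fun _ => (κ : ℂ) * z 0 ^ N)
      (c := fun _ => ((κ * ρ ^ N : ℝ) : ℂ)) (by fun_prop) (by fun_prop) (by fun_prop),
      fderiv_coord]
    simp
  rw [hf]
  have h := det_formula (u 0) ((κ : ℂ) * z 0 ^ N) ((κ * ρ ^ N : ℝ) : ℂ) 0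
    (‖u 0‖ ^ 2 + ‖(κ : ℂ) * z 0 ^ N‖ ^ 2 + ‖((κ * ρ ^ N : ℝ) : ℂ)‖ ^ 2) rfl (by
      rw [norm_C κ ρ hκ hρ]; positivity)
  have h0 : ∀ v η : E3, fubiniStudy v (WithLp.toLp 2 ![0, 0, 0]) η = 0 := by
    intro v η
    have : (WithLp.toLp 2 ![0, 0, 0] : E3) = 0 := by
      ext i; fin_cases i <;> rfl
    rw [this, fubiniStudy]
    simp
  simp only [h0, add_zero, one_mul, zero_mul, sub_zero] at h
  rw [h, Complex.ofReal_re, norm_B κ hκ, norm_C κ ρ hκ hρ]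
  simp only [norm_zero]
  ring_nf

/-- The volumes of the slices. -/
theorem vol_slice {N : ℕ} {κ ρ : ℝ} (hκ : 0 < κ) (hρ : 0 < ρ) (z : Fin 1 → ℂ)
    (T : Set (Fin 1 → ℂ)) (hT : T ⊆ ball 0 1) :
    graphVol (slice (a := 1) (b := 1) (FF κ ρ N) z) T ≤
      ENNReal.ofReal Real.pi + ENNReal.ofReal Real.pi := by
  unfold graphVol
  set c : ℝ := (κ * ‖z 0‖ ^ N) ^ 2 + (κ * ρ ^ N) ^ 2 with hc
  have hc0 : 0 < c := by
    have : 0 < (κ * ρ ^ N) ^ 2 := by positivity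
    have : 0 ≤ (κ * ‖z 0‖ ^ N) ^ 2 := by positivity
    rw [hc]; linarith
  have h1 : ∀ u : Fin 1 → ℂ, ENNReal.ofReal
      (gram (slice (a := 1) (b := 1) (FF κ ρ N) z) u).det.re
      = (fun w : ℂ => 1 + ENNReal.ofReal (c / (‖w‖ ^ 2 + c) ^ 2))
        (MeasurableEquiv.funUnique (Fin 1) ℂ u) := by
    intro u
    rw [gram_slice κ ρ hκ hρ, ENNReal.ofReal_add zero_le_one (by positivity), ENNReal.ofReal_one]
    rfl
  rw [lintegral_congr h1]
  refine (lintegral_mono_set hT).trans ?_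
  have h2 : (ball (0 : Fin 1 → ℂ) 1)
      = (MeasurableEquiv.funUnique (Fin 1) ℂ) ⁻¹' (ball (0 : ℂ) 1) := by
    ext u
    simp only [mem_ball_zero_iff, mem_preimage]
    have : ‖u‖ = ‖u 0‖ := by
      refine le_antisymm ?_ (norm_le_pi_norm u 0)
      rw [pi_norm_le_iff_of_nonneg (norm_nonneg _)]
      intro i
      rw [Subsingleton.elim i 0]
    rw [this]
    rfl
  rw [h2]
  have h3 := (volume_preserving_funUnique (Fin 1) ℂ).setLIntegral_comp_preimage_emb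
    (MeasurableEquiv.measurableEmbedding _)
    (fun w : ℂ => 1 + ENNReal.ofReal (c / (‖w‖ ^ 2 + c) ^ 2)) (ball (0 : ℂ) 1)
  refine (le_of_eq h3).trans ?_
  rw [lintegral_add_left measurable_const, lintegral_one, Measure.restrict_apply
    MeasurableSet.univ, univ_inter, vol_ball 1 zero_le_one, one_pow, mul_one]
  exact add_le_add le_rfl ((setLIntegral_le_lintegral _ _).trans (lint_G c hc0))

/-- The total volume is large. -/
theorem vol_big {N : ℕ} (hN : 2 ≤ N) {κ ρ : ℝ} (hκ0 : 0 < κ) (hκ1 : κ ≤ 1)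
    (hρ : 0 < ρ) (hρ1 : ρ ≤ 1 / 4) :
    ENNReal.ofReal ((N : ℝ) / 1000) ≤ graphVol (FF κ ρ N) (polydisc (1 + 1)) := by
  have hN0 : (0 : ℝ) < N := by exact_mod_cast (by omega : 0 < N)
  have hN1 : (1 : ℝ) ≤ N := by exact_mod_cast (by omega : 1 ≤ N)
  set s : ℝ := κ * ρ ^ N with hs
  have hs0 : 0 < s := by positivity
  have hs1 : s ≤ 1 := by
    have h1 : ρ ^ N ≤ 1 := pow_le_one₀ hρ.le (by linarith)
    calc κ * ρ ^ N ≤ 1 * 1 := mul_le_mul hκ1 h1 (by positivity) zero_le_one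
      _ = 1 := one_mul _
  set ρ' : ℝ := ρ * (1 + 1 / N) with hρ'
  have hinv : 1 / (N : ℝ) ≤ 1 := by
    rw [div_le_one hN0]; exact hN1
  have hρ'1 : ρ' ≤ 1 := by
    rw [hρ']
    nlinarith
  have hρρ' : ρ < ρ' := by
    rw [hρ']
    have : 0 < ρ * (1 / N) := by positivity
    nlinarith
  set K : ℝ := (N : ℝ) ^ 2 / (1000 * ρ ^ 2 * s ^ 2) with hK
  have hK0 : 0 < K := by positivity
  let Ann : Set ℂ := ball 0 ρ' \ ball 0 ρ
  have hAnn : MeasurableSet Ann := measurableSet_ball.diff measurableSet_ball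
  have hsub : {z : Fin (1 + 1) → ℂ | z 0 ∈ Ann ∧ z 1 ∈ ball (0 : ℂ) s} ⊆ polydisc (1 + 1) := by
    rintro z ⟨h0, h1⟩
    have h2 : ‖z 0‖ < ρ' := by simpa using h0.1
    have h3 : ‖z 1‖ < s := by simpa using h1
    change z ∈ ball (0 : Fin (1 + 1) → ℂ) 1
    rw [mem_ball_zero_iff, pi_norm_lt_iff one_pos]
    intro i
    fin_cases i
    · exact lt_of_lt_of_le h2 hρ'1
    · exact lt_of_lt_of_le h3 hs1
  have hmeas : MeasurableSet {z : Fin (1 + 1) → ℂ | z 0 ∈ Ann ∧ z 1 ∈ ball (0 : ℂ) s} :=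
    ((measurable_pi_apply 0) hAnn).inter ((measurable_pi_apply 1) measurableSet_ball)
  calc ENNReal.ofReal ((N : ℝ) / 1000)
      ≤ ENNReal.ofReal K * ENNReal.ofReal (Real.pi * s ^ 2) *
        ENNReal.ofReal (Real.pi * ρ' ^ 2 - Real.pi * ρ ^ 2) := by
        rw [← ENNReal.ofReal_mul hK0.le, ← ENNReal.ofReal_mul (by positivity)]
        refine ENNReal.ofReal_le_ofReal ?_
        have h1 : 2 * ρ ^ 2 / N ≤ ρ' ^ 2 - ρ ^ 2 := by
          have : ρ' ^ 2 - ρ ^ 2 = 2 * ρ ^ 2 / N + ρ ^ 2 / N ^ 2 := by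
            rw [hρ']; field_simp; ring
          rw [this]
          have : 0 ≤ ρ ^ 2 / (N : ℝ) ^ 2 := by positivity
          linarith
        have h2 : K * (Real.pi * s ^ 2) * (Real.pi * ρ' ^ 2 - Real.pi * ρ ^ 2)
            ≥ K * (Real.pi * s ^ 2) * (Real.pi * (2 * ρ ^ 2 / N)) := by
          have h3 : Real.pi * (2 * ρ ^ 2 / N) ≤ Real.pi * ρ' ^ 2 - Real.pi * ρ ^ 2 := by
            rw [← mul_sub]
            exact mul_le_mul_of_nonneg_left h1 Real.pi_pos.le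
          exact mul_le_mul_of_nonneg_left h3 (by positivity)
        have h4 : K * (Real.pi * s ^ 2) * (Real.pi * (2 * ρ ^ 2 / N))
            = 2 * Real.pi ^ 2 * (N / 1000) := by
          rw [hK]
          field_simp
        have h5 : 1 ≤ 2 * Real.pi ^ 2 := by
          have := Real.pi_gt_three
          nlinarith
        have h6 : (N : ℝ) / 1000 ≤ 2 * Real.pi ^ 2 * (N / 1000) := by
          have : 0 ≤ (N : ℝ) / 1000 := by positivity
          nlinarith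
        linarith
    _ = ∫⁻ _a in Ann, ∫⁻ _b in ball (0 : ℂ) s, ENNReal.ofReal K := by
        rw [lintegral_const, lintegral_const, Measure.restrict_apply MeasurableSet.univ,
          univ_inter, Measure.restrict_apply MeasurableSet.univ, univ_inter,
          vol_ball s hs0.le]
        congr 1
        change _ = volume (ball (0 : ℂ) ρ' \ ball 0 ρ)
        rw [measure_sdiff (ball_subset_ball hρρ'.le) measurableSet_ball.nullMeasurableSet
          (by rw [vol_ball ρ hρ.le]; exact ENNReal.ofReal_ne_top),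
          vol_ball ρ hρ.le, vol_ball ρ' (by linarith), ENNReal.ofReal_sub _ (by positivity)]
    _ = ∫⁻ z in {z : Fin (1 + 1) → ℂ | z 0 ∈ Ann ∧ z 1 ∈ ball (0 : ℂ) s},
          ENNReal.ofReal K := (lint_two (fun _ _ => ENNReal.ofReal K) measurable_const _ _).symm
    _ ≤ ∫⁻ z in {z : Fin (1 + 1) → ℂ | z 0 ∈ Ann ∧ z 1 ∈ ball (0 : ℂ) s},
          ENNReal.ofReal (gram (FF κ ρ N) z).det.re := by
        refine setLIntegral_mono' hmeas fun z hz => ENNReal.ofReal_le_ofReal ?_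
        have h2 : ‖z 0‖ < ρ' := by simpa using hz.1.1
        have h3 : ρ ≤ ‖z 0‖ := by simpa using hz.1.2
        have h4 : ‖z 1‖ < s := by simpa using hz.2
        rw [det_re κ ρ hκ0 hρ N z _ rfl]
        have h5 := est_low hN hκ0 hρ h3 h2.le (norm_nonneg (z 1)) h4.le rfl
        have h6 : 0 ≤ (κ * (N * ‖z 0‖ ^ (N - 1))) ^ 2 * (‖z 1‖ ^ 2 + (κ * ρ ^ N) ^ 2) /
          (‖z 1‖ ^ 2 + (κ * ‖z 0‖ ^ N) ^ 2 + (κ * ρ ^ N) ^ 2) ^ 2 := by positivity
        have h7 : 0 ≤ ((κ * ‖z 0‖ ^ N) ^ 2 + (κ * ρ ^ N) ^ 2) /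
          (‖z 1‖ ^ 2 + (κ * ‖z 0‖ ^ N) ^ 2 + (κ * ρ ^ N) ^ 2) ^ 2 := by positivity
        linarith
    _ ≤ graphVol (FF κ ρ N) (polydisc (1 + 1)) := lintegral_mono_set hsub

end Q71.GV
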